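import Pool.Agent.Helper73.OB.Defs

/-!
Project OB: lemmas about words, runs and systems.
-/

open MeasureTheory

namespace Pool.Agent.Helper73.OB

section Words

variable {S : Type} {β : S → S}

theorem ls_ls (hβ : ∀ s, β (β s) = s) (s : S) {w : List S} (h : Red β w) :
    ls β (β s) (ls β s w) = w := by
  unfold ls
  by_cases h1 : w.head? = some (β s)
  · rw [if_pos h1]
    cases w with
    | nil => simp at h1
    | cons b w =>
      have hb : b = β s := by simpa using h1
      subst hb
      have h2 : w.head? ≠ some (β (β s)) := by
        cases w with
        | nil => simp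
        | cons c w =>
          have := (List.isChain_cons_cons.1 h).1
          simpa using this
      simp only [List.tail_cons]
      rw [if_neg h2]
  · rw [if_neg h1]
    simp [hβ]

theorem red_nil : red β ([] : List S) = [] := rfl

theorem red_cons (s : S) (u : List S) : red β (s :: u) = ls β s (red β u) := rfl

theorem red_of_Red {w : List S} (h : Red β w) : red β w = w := by
  induction w with
  | nil => rfl
  | cons a w ih =>
    rw [red_cons, ih (List.IsChain.tail h)]
    unfold ls
    rw [if_neg]
    cases w with
    | nil => simp
    | cons b w =>
      have := (List.isChain_cons_cons.1 h).1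
      simpa using this

theorem red_append (u v : List S) : red β (u ++ v) = red β (u ++ red β v) := by
  induction u with
  | nil => simp [red_of_Red (red_Red β v)]
  | cons a u ih => simp only [List.cons_append, red_cons, ih]

theorem red_cancel (hβ : ∀ s, β (β s) = s) (s : S) (u : List S) :
    red β (β s :: s :: u) = red β u := by
  rw [red_cons, red_cons, ls_ls hβ s (red_Red β u)]

theorem red_cancel' (hβ : ∀ s, β (β s) = s) (s : S) (u : List S) :
    red β (s :: β s :: u) = red β u := by
  have := red_cancel hβ (β s) u
  rwa [hβ] at this

theorem invw_cons (a : S) (w : List S) : invw β (a :: w) = invw β w ++ [β a] := by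
  simp [invw]

theorem invw_append (u v : List S) : invw β (u ++ v) = invw β v ++ invw β u := by
  simp [invw]

theorem invw_invw (hβ : ∀ s, β (β s) = s) (w : List S) : invw β (invw β w) = w := by
  unfold invw
  rw [List.map_reverse, List.reverse_reverse, List.map_map]
  have : β ∘ β = id := funext hβ
  rw [this, List.map_id]

theorem red_invw_append (hβ : ∀ s, β (β s) = s) (w u : List S) :
    red β (invw β w ++ (w ++ u)) = red β u := by
  induction w generalizing u with
  | nil => rfl
  | cons a w ih =>
    rw [invw_cons, List.append_assoc]
    rw [red_append]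
    simp only [List.cons_append, List.nil_append]
    rw [red_cancel hβ, ← red_append]
    exact ih u

theorem red_append_invw (hβ : ∀ s, β (β s) = s) (w u : List S) :
    red β (w ++ (invw β w ++ u)) = red β u := by
  have := red_invw_append hβ (invw β w) u
  rwa [invw_invw hβ] at this

/-- Concatenation of reduced words with a good junction. -/
theorem Red.append {u v : List S} (hu : Red β u) (hv : Red β v)
    (h : ∀ a ∈ u.getLast?, ∀ b ∈ v.head?, b ≠ β a) : Red β (u ++ v) :=
  List.IsChain.append hu hv h

theorem Red.left {u v : List S} (h : Red β (u ++ v)) : Red β u := List.IsChain.left_of_append h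

theorem Red.right {u v : List S} (h : Red β (u ++ v)) : Red β v := List.IsChain.right_of_append h

/-- If the reduced form of `w'⁻¹ u` starts with `a` and `w' a` is reduced, then `u` starts with `w' a`. -/
theorem prefix_of_head (hβ : ∀ s, β (β s) = s) {w u v : List S} {a : S} (hu : Red β u)
    (hw : Red β (w ++ [a])) (h : red β (invw β w ++ u) = a :: v) : u = w ++ a :: v := by
  have h1 : red β (w ++ (invw β w ++ u)) = red β u := red_append_invw hβ w u
  rw [red_append, h, red_of_Red hu] at h1
  rw [← h1]
  have h2 : Red β (a :: v) := h ▸ red_Red β _
  refine red_of_Red (Red.append hw.left h2 ?_)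
  intro b hb c hc
  have hc' : c = a := by simpa using hc.symm
  subst hc'
  have := (List.isChain_append.1 hw).2.2 b hb c (by simp)
  exact this

end Words

section Run

variable {S X : Type} {β : S → S} {f : S → X → X}

@[simp] theorem run_nil (x : X) : run f [] x = x := rfl

@[simp] theorem run_cons (s : S) (w : List S) (x : X) : run f (s :: w) x = run f w (f s x) := rfl

theorem run_append (u v : List S) (x : X) : run f (u ++ v) x = run f v (run f u x) := by
  simp [run, List.foldl_append]

theorem run_ls (hf : ∀ s x, f (β s) (f s x) = x) (s : S) (w : List S) (x : X) :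
    run f (ls β s w) x = run f w (f s x) := by
  unfold ls
  split_ifs with h
  · cases w with
    | nil => simp at h
    | cons b w =>
      have hb : b = β s := by simpa using h
      subst hb
      simp [hf]
  · rfl

theorem run_red (hf : ∀ s x, f (β s) (f s x) = x) (u : List S) (x : X) :
    run f (red β u) x = run f u x := by
  induction u generalizing x with
  | nil => rfl
  | cons a u ih => rw [red_cons, run_ls hf, ih, run_cons]

theorem run_invw (hf : ∀ s x, f (β s) (f s x) = x) (w : List S) (x : X) :
    run f (invw β w) (run f w x) = x := by
  induction w generalizing x with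
  | nil => rfl
  | cons a w ih => rw [invw_cons, run_append, run_cons a w, ih, run_cons, hf, run_nil]

theorem run_invw' (hβ : ∀ s, β (β s) = s) (hf : ∀ s x, f (β s) (f s x) = x) (w : List S) (x : X) :
    run f w (run f (invw β w) x) = x := by
  have := run_invw hf (invw β w) x
  rwa [invw_invw hβ] at this

/-- The field of `f_s x` is the shifted field of `x`. -/
theorem field_shift {L : Type} (hf : ∀ s x, f (β s) (f s x) = x) (l : X → L) (s : S) (x : X) :
    field β f l (f s x) = shiftR β s (field β f l x) := by
  funext w
  simp only [field, shiftR, run_ls hf]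

theorem field_root {L : Type} (l : X → L) (x : X) : field β f l x (rootW β) = l x := rfl

theorem sig_eq {L : Type} [MeasurableSpace L] (f : S → X → X) (s : X → L) (Q : Set (List S)) :
    sig f s Q = MeasurableSpace.comap (fun x (w : Q) => s (run f w.1 x)) MeasurableSpace.pi := by
  unfold sig MeasurableSpace.pi
  rw [MeasurableSpace.comap_iSup]
  simp only [MeasurableSpace.comap_comp]
  rw [iSup_subtype']
  rfl

theorem sig_iff {L : Type} [MeasurableSpace L] {f : S → X → X} {s : X → L} {Q : Set (List S)}
    {A : Set X} : MeasurableSet[sig f s Q] A ↔
      ∃ B : Set (Q → L), MeasurableSet B ∧ (fun x (w : Q) => s (run f w.1 x)) ⁻¹' B = A := by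
  rw [sig_eq]
  rfl

/-- Equivariant maps and runs. -/
theorem run_equivariant {X' : Type} {f' : S → X' → X'} {π : X → X'}
    (hπ : ∀ s x, π (f s x) = f' s (π x)) (w : List S) (x : X) :
    π (run f w x) = run f' w (π x) := by
  induction w generalizing x with
  | nil => rfl
  | cons a w ih => rw [run_cons, run_cons, ih, hπ]

theorem Sys.run_mp [MeasurableSpace X] {μ : Measure X} (h : Sys β μ f) (w : List S) :
    MeasurePreserving (run f w) μ μ := by
  induction w with
  | nil => exact MeasurePreserving.id μ
  | cons a w ih => exact ih.comp (h.mp a)

end Run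

section Model

variable {S L : Type} {β : S → S}

theorem shiftR_inv (hβ : ∀ s, β (β s) = s) (s : S) (ω : RW β → L) :
    shiftR β (β s) (shiftR β s ω) = ω := by
  funext w
  simp only [shiftR]
  congr 1
  apply Subtype.ext
  simp only
  have := ls_ls hβ (β s) w.2
  rwa [hβ] at this

/-- In the model `(F_u ω)(w) = ω(red (u ++ w))`. -/
theorem run_shiftR (u : List S) (ω : RW β → L) (w : RW β) :
    run (shiftR β) u ω w = ω ⟨red β (u ++ w.1), red_Red β _⟩ := by
  induction u generalizing ω with
  | nil =>
    simp only [run_nil, List.nil_append]
    congr 1
    exact Subtype.ext (red_of_Red w.2).symm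
  | cons a u ih =>
    rw [run_cons, ih]
    rfl

theorem run_shiftR_root {u : List S} (hu : Red β u) (ω : RW β → L) :
    run (shiftR β) u ω (rootW β) = ω ⟨u, hu⟩ := by
  rw [run_shiftR]
  congr 1
  apply Subtype.ext
  simp only [rootW, List.append_nil]
  exact red_of_Red hu

/-- The field of the root value in the model is the point itself. -/
theorem field_model (ω : RW β → L) :
    field β (shiftR β) (fun ω : RW β → L => ω (rootW β)) ω = ω := by
  funext w
  exact run_shiftR_root w.2 ω

/-- `ls β s` as a permutation of the reduced words. -/
noncomputable def lsEquiv (hβ : ∀ s, β (β s) = s) (s : S) : RW β ≃ RW β where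
  toFun w := ⟨ls β s w.1, w.2.ls s⟩
  invFun w := ⟨ls β (β s) w.1, w.2.ls (β s)⟩
  left_inv w := Subtype.ext (ls_ls hβ s w.2)
  right_inv w := by
    apply Subtype.ext
    have := ls_ls hβ (β s) w.2
    simpa only [hβ] using this

end Model

end Pool.Agent.Helper73.OB
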