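import Pool.Agent.Helper73.OB.Words

/-!
Project OB (MP_fc0446_an), goals B: uniqueness of typed Markov systems, the exchange, generation, the
spectral bound and the tails of one step. Text proofs: `paper.md` in this folder, sections 3, 4 (REC), 5, 6.
Each packet proves one `S_...`; other `S_...` (of GoalsA and GoalsB) may be used as hypotheses.
-/

open MeasureTheory ProbabilityTheory
open scoped ENNReal

namespace Pool.Agent.Helper73.OB

/-- U1. Two typed Markov systems give the same probabilities to rectangles.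
Proof (paper, Lemma U): induction on `∑ w ∈ A, pc p w`. If all `pc` are 0: `cos`. Otherwise take `w ∈ A` with
the maximal `pc = m ≥ 1`, `w = w' ++ p z :: k`, `IsH p k`; `A₁` = the words of `A` that start with `w' ++ [p z]`
(their rests are H-words by maximality), `A₂` = the others; with `x' = run f w' x`, `y = f (p z) x'` the event
is an event of the side `p z` of `x'` (for `A₂`, by `prefix_of_head`, `run_red`) and one of the H-field of `y`;
`glue` for both values of `c`; the first factor is the rectangle for `A₂ ∪ {w'}` with a smaller sum. -/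
def S_U1 : Prop :=
  ∀ (S : Type) [Finite S] (β : S → S) (p : Bit → S) (δ : Bit), Fr β p δ →
  ∀ (e : unitInterval) (X X' : Type) [MeasurableSpace X] [MeasurableSpace X'] (μ : Measure X)
    (μ' : Measure X') [IsProbabilityMeasure μ] [IsProbabilityMeasure μ'] (f : S → X → X)
    (f' : S → X' → X'), Sys β μ f → Sys β μ' f' → ∀ (s : X → Sk) (s' : X' → Sk),
    TM β p δ e μ f s → TM β p δ e μ' f' s' →
    ∀ (A : Finset (List S)) (E : List S → Set Sk), (∀ w ∈ A, Red β w) →
      (∀ w, MeasurableSet (E w)) →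
      μ {x | ∀ w ∈ A, s (run f w x) ∈ E w} = μ' {x | ∀ w ∈ A, s' (run f' w x) ∈ E w}

/-- U2. The laws of the skeleton fields agree. Proof: `S_U1` and the π-system of rectangles. -/
def S_U2 : Prop :=
  ∀ (S : Type) [Finite S] (β : S → S) (p : Bit → S) (δ : Bit), Fr β p δ →
  ∀ (e : unitInterval) (X X' : Type) [MeasurableSpace X] [MeasurableSpace X'] (μ : Measure X)
    (μ' : Measure X') [IsProbabilityMeasure μ] [IsProbabilityMeasure μ'] (f : S → X → X)
    (f' : S → X' → X'), Sys β μ f → Sys β μ' f' → ∀ (s : X → Sk) (s' : X' → Sk),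
    TM β p δ e μ f s → TM β p δ e μ' f' s' →
    μ.map (field β f s) = μ'.map (field β f' s')

/-- REC. Encoding a typed Markov system gives a Bernoulli label, and decoding gives the skeleton back.
Proof: `S_U2` with the label model (`S_MODSYS`, `S_COD` for the root label); `S_NAT` for the maps
`field β g s` and `field β F (dec ...)`; `S_MEAS`. -/
def S_REC : Prop :=
  ∀ (S : Type) [Finite S] (β : S → S) (p : Bit → S) (δ : Bit), Fr β p δ →
  ∀ (e : unitInterval), 0 < e →
  ∀ (X : Type) [MeasurableSpace X] (μ : Measure X) [IsProbabilityMeasure μ] (g : S → X → X),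
    Sys β μ g → ∀ s : X → Sk, TM β p δ e μ g s →
    Bnl β μ g (enc p δ g s) (lawL e) ∧ ∀ᵐ x ∂μ, dec p δ g (enc p δ g s) x = s x

/-- SUB. The H-letters alone give a Bernoulli system with label `s`.
Proof: `cos` and the bijection of reduced words over the subtype with the reduced H-words. -/
def S_SUB : Prop :=
  ∀ (S : Type) [Finite S] (β : S → S) (p : Bit → S) (δ : Bit), Fr β p δ →
  ∀ (e : unitInterval) (X : Type) [MeasurableSpace X] (μ : Measure X) [IsProbabilityMeasure μ]
    (f : S → X → X), Sys β μ f → ∀ s : X → Sk, TM β p δ e μ f s →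
    ∀ β' : {a : S // a ∉ Set.range p} → {a : S // a ∉ Set.range p}, (∀ a, (β' a).1 = β a.1) →
      Sys β' μ (fun a => f a.1) ∧ Bnl β' μ (fun a => f a.1) s (kap e) ∧
      (∀ w : List {a : S // a ∉ Set.range p}, (Red β' w ↔ Red β (w.map Subtype.val)) ∧
        ∀ x, run (fun a => f a.1) w x = run f (w.map Subtype.val) x) ∧
      sig (fun a : {a : S // a ∉ Set.range p} => f a.1) s {w | Red β' w} =
        sig f s {w | Red β w ∧ IsH p w}

/-- MIX. A Bernoulli system with at least two letters is mixing enough.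
Proof: there are infinitely many reduced words; approximate `A` and `B` by sets depending on finitely many
coordinates, choose `h` such that the coordinates of `B` moved by `h` are new, independence. -/
def S_MIX : Prop :=
  ∀ (S : Type) [Finite S] (β : S → S), (∀ s, β (β s) = s) → (∃ a b : S, a ≠ b) →
  ∀ (X : Type) [MeasurableSpace X] (μ : Measure X) [IsProbabilityMeasure μ] (f : S → X → X),
    Sys β μ f →
  ∀ (L : Type) [MeasurableSpace L] (law : Measure L) [IsProbabilityMeasure law] (l : X → L),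
    Bnl β μ f l law →
  ∀ A B : Set X, MeasurableSet[sig f l {w | Red β w}] A →
    MeasurableSet[sig f l {w | Red β w}] B → 0 < μ A → 0 < μ B →
    ∃ h, Red β h ∧ 0 < μ (A ∩ run f h ⁻¹' B)

/-- GREEDY. Greedy matching along the reduced words, ordered by length (paper, section 5).
`E_k = A_k ∩ f_{h_k}⁻¹ B_k`, `A_{k+1} = A_k \ E_k`, `B_{k+1} = B_k \ f_{h_k}(E_k)`; `K = h_k` on `E_k`,
`K' = h_k⁻¹` on `f_{h_k}(E_k)`. The leftover sets are null by the mixing hypothesis. `A', B'` are the sets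
`A_k, B_k` after all words of length at most `n`. -/
def S_GREEDY : Prop :=
  ∀ (S : Type) [Finite S] (β : S → S), (∀ s, β (β s) = s) →
  ∀ (X : Type) [mX : MeasurableSpace X] (μ : Measure X) [IsProbabilityMeasure μ] (f : S → X → X),
    Sys β μ f →
  ∀ H : MeasurableSpace X, H ≤ mX → (∀ s, @Measurable X X H H (f s)) →
    (∀ A B : Set X, MeasurableSet[H] A → MeasurableSet[H] B → 0 < μ A → 0 < μ B →
      ∃ h, Red β h ∧ 0 < μ (A ∩ run f h ⁻¹' B)) →
  ∀ A B : Set X, MeasurableSet[H] A → MeasurableSet[H] B → μ A = μ B →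
    ∃ K K' : X → List S, @Measurable X (List S) H ⊤ K ∧ @Measurable X (List S) H ⊤ K' ∧
      (∀ x, Red β (K x)) ∧ (∀ x, Red β (K' x)) ∧
      (∀ x, x ∉ A → K x = []) ∧ (∀ x, x ∉ B → K' x = []) ∧
      (∀ᵐ x ∂μ, x ∈ A → run f (K x) x ∈ B ∧ K' (run f (K x) x) = invw β (K x)) ∧
      (∀ᵐ y ∂μ, y ∈ B → run f (K' y) y ∈ A ∧ K (run f (K' y) y) = invw β (K' y)) ∧
      ∀ n : ℕ, ∃ A' B' : Set X, MeasurableSet[H] A' ∧ MeasurableSet[H] B' ∧ μ A' = μ B' ∧
        {x | n < (K x).length} ⊆ A' ∧ {y | n < (K' y).length} ⊆ B' ∧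
        ∀ h, Red β h → h.length ≤ n → μ (A' ∩ run f h ⁻¹' B') = 0

/-- The tail sets of a matching (`H` = σ-algebra of the H-field). -/
def TailSets {S X : Type} [MeasurableSpace X] (β : S → S) (p : Bit → S) (μ : Measure X)
    (f : S → X → X) (s : X → Sk) (K K' : X → List S) : Prop :=
  ∀ n : ℕ, ∃ A' B' : Set X, MeasurableSet[sig f s {w | Red β w ∧ IsH p w}] A' ∧
    MeasurableSet[sig f s {w | Red β w ∧ IsH p w}] B' ∧ μ A' = μ B' ∧
    {x | n < (K x).length} ⊆ A' ∧ {y | n < (K' y).length} ⊆ B' ∧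
    ∀ h, Red β h → IsH p h → h.length ≤ n → μ (A' ∩ run f h ⁻¹' B') = 0

/-- MATCH. The four matchings `θ_{(z,c)}` (paper, section 5), `K z c, K' z c`.
Proof: `S_SUB, S_MIX, S_GREEDY` for the H-letters (transport words by `List.map Subtype.val`), with
`A = {M = true, a_z = c}`, `B = {M = true, o_c = z}`, both of measure `e/2` (`S_PRB`, law of `s` from `cos` at
`[]`); a non-marker has `K = []`, and `a_z = c ↔ o_c = z` there a.e. -/
def S_MATCH : Prop :=
  ∀ (S : Type) [Finite S] (β : S → S) (p : Bit → S) (δ : Bit), Fr β p δ →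
    (∃ a b : S, a ≠ b ∧ a ∉ Set.range p ∧ b ∉ Set.range p) →
  ∀ (e : unitInterval) (X : Type) [MeasurableSpace X] (μ : Measure X) [IsProbabilityMeasure μ]
    (f : S → X → X), Sys β μ f → ∀ s : X → Sk, TM β p δ e μ f s →
    ∀ z c : Bit, ∃ K K' : X → List S,
      @Measurable X (List S) (sig f s {w | Red β w ∧ IsH p w}) ⊤ K ∧
      @Measurable X (List S) (sig f s {w | Red β w ∧ IsH p w}) ⊤ K' ∧
      (∀ x, Red β (K x) ∧ IsH p (K x)) ∧ (∀ x, Red β (K' x) ∧ IsH p (K' x)) ∧
      (∀ x, (s x).1 = false → K x = []) ∧ (∀ x, (s x).1 = false → K' x = []) ∧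
      (∀ᵐ x ∂μ, (s x).2.1 0 z = c →
        (s (run f (K x) x)).2.1 1 c = z ∧ K' (run f (K x) x) = invw β (K x)) ∧
      (∀ᵐ y ∂μ, (s y).2.1 1 c = z →
        (s (run f (K' y) y)).2.1 0 z = c ∧ K (run f (K' y) y) = invw β (K' y)) ∧
      TailSets β p μ f s K K'

/-- The exchanged system (paper, section 5). -/
structure Exch {S X : Type} [MeasurableSpace X] (βZ βD : S → S) (p : Bit → S) (μ : Measure X)
    (f g : S → X → X) (s : X → Sk) (K K' : Bit → Bit → X → List S) (G : Set X) : Prop where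
  frZ : Fr βZ p 0
  frD : Fr βD p 1
  βeq : ∀ a, a ∉ Set.range p → βZ a = βD a
  sysZ : Sys βZ μ f
  sysD : Sys βD μ g
  meas : Measurable s
  G_meas : MeasurableSet G
  G_full : μ Gᶜ = 0
  G_f : ∀ a, ∀ x ∈ G, f a x ∈ G
  G_g : ∀ a, ∀ x ∈ G, g a x ∈ G
  bits : ∀ x ∈ G, (s x).1 = false → ∀ d z, (s x).2.1 d z = (s x).2.1 0 0 + z
  edge : ∀ x ∈ G, ∀ z, (s (f (p z) x)).2.1 0 (z + 1) = (s x).2.1 0 z
  free : ∀ x ∈ G, ∀ h, Red βZ h → IsH p h → run f h x = x → h = []
  K_meas : ∀ z c, @Measurable X (List S) (sig f s {w | Red βZ w ∧ IsH p w}) ⊤ (K z c)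
  K'_meas : ∀ z c, @Measurable X (List S) (sig f s {w | Red βZ w ∧ IsH p w}) ⊤ (K' z c)
  K_H : ∀ z c x, Red βZ (K z c x) ∧ IsH p (K z c x)
  K'_H : ∀ z c x, Red βZ (K' z c x) ∧ IsH p (K' z c x)
  K_nil : ∀ z c x, (s x).1 = false → K z c x = []
  K'_nil : ∀ z c x, (s x).1 = false → K' z c x = []
  th : ∀ z c, ∀ x ∈ G, (s x).2.1 0 z = c →
    (s (run f (K z c x) x)).2.1 1 c = z ∧ K' z c (run f (K z c x) x) = invw βZ (K z c x)
  th' : ∀ z c, ∀ y ∈ G, (s y).2.1 1 c = z →
    (s (run f (K' z c y) y)).2.1 0 z = c ∧ K z c (run f (K' z c y) y) = invw βZ (K' z c y)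
  g_H : ∀ a, a ∉ Set.range p → g a = f a
  g_P : ∀ c, ∀ x ∈ G, ∀ z, z = (s x).2.1 1 c → ∀ y, y = f (p z) (run f (K' z c x) x) →
    g (p c) x = run f (K (z + 1) c y) y
  g_off : ∀ c, ∀ x ∉ G, g (p c) x = x

/-- EXCH. Construction of the exchanged system.
Proof: `S_MATCH` for the four types; `G` = intersection of the preimages under all runs of a measurable
conull set on which the matching properties, the edge rule (`glue` with `E = univ`), the bit rule (`S_PRB`) and
`s (run f h x) ≠ s x` for all reduced H-words `h ≠ []` hold (`cos`, `kap e` has no atoms, `S_PRB`).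
Define `g` by `g_H, g_P, g_off`; check that `g (p c)` is an involution that preserves `G`; it is measure
preserving because it is bijective and piecewise a run of `f`. -/
def S_EXCH : Prop :=
  ∀ (S : Type) [Finite S] (βZ βD : S → S) (p : Bit → S), Fr βZ p 0 → Fr βD p 1 →
    (∀ a, a ∉ Set.range p → βZ a = βD a) →
    (∃ a b : S, a ≠ b ∧ a ∉ Set.range p ∧ b ∉ Set.range p) →
  ∀ (e : unitInterval) (X : Type) [MeasurableSpace X] (μ : Measure X) [IsProbabilityMeasure μ]
    (f : S → X → X), Sys βZ μ f → ∀ s : X → Sk, TM βZ p 0 e μ f s →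
    ∃ (g : S → X → X) (K K' : Bit → Bit → X → List S) (G : Set X),
      Exch βZ βD p μ f g s K K' G ∧ ∀ z c, TailSets βZ p μ f s (K z c) (K' z c)

/-- LOC. Locality of the exchange. Proof: paper, section 5, LOC (induction on `pc p w`). -/
def S_LOC : Prop :=
  ∀ (S : Type) [Finite S] (βZ βD : S → S) (p : Bit → S) (X : Type) [MeasurableSpace X]
    (μ : Measure X) [IsProbabilityMeasure μ] (f g : S → X → X) (s : X → Sk)
    (K K' : Bit → Bit → X → List S) (G : Set X), Exch βZ βD p μ f g s K K' G →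
    ∀ (w : List S) (z c : Bit), Red βD w → w.head? ≠ some (p c) →
    ∃ U : X → List S, @Measurable X (List S) (sig f s (Side βZ (p z))) ⊤ U ∧
      (∀ x, Red βZ (U x)) ∧ (∀ x, (U x).head? ≠ some (p z)) ∧
      ∀ x ∈ G, (s x).2.1 0 z = c → run g w (run f (K z c x) x) = run f (U x) x

/-- EX. The exchanged system is typed Markov in case D.
Proof: paper, Lemma EX. `cos`: same maps on H-words (reindex). `glue`: `θ_{(z,c)}` is measure preserving from
`{a_z = c}` to `{o_c = z}` (piecewise runs), `S_LOC`, and `glue` of `f`. -/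
def S_EX : Prop :=
  ∀ (S : Type) [Finite S] (βZ βD : S → S) (p : Bit → S) (e : unitInterval) (X : Type)
    [MeasurableSpace X] (μ : Measure X) [IsProbabilityMeasure μ] (f g : S → X → X) (s : X → Sk)
    (K K' : Bit → Bit → X → List S) (G : Set X), Exch βZ βD p μ f g s K K' G →
    TM βZ p 0 e μ f s → TM βD p 1 e μ g s

/-- BACK. The old letters in terms of the new ones (formula (*) of the paper) and the marker-free
neighbourhoods. -/
def S_BACK : Prop :=
  ∀ (S : Type) [Finite S] (βZ βD : S → S) (p : Bit → S) (X : Type) [MeasurableSpace X]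
    (μ : Measure X) [IsProbabilityMeasure μ] (f g : S → X → X) (s : X → Sk)
    (K K' : Bit → Bit → X → List S) (G : Set X), Exch βZ βD p μ f g s K K' G →
    (∀ x ∈ G, ∀ z c, c = (s x).2.1 0 z → ∀ y, y = g (p c) (run f (K z c x) x) →
      f (p z) x = run f (K' (z + 1) c y) y) ∧
    (∀ x, ∀ h, IsH p h → run g h x = run f h x) ∧
    (∀ x ∈ G, (s x).1 = false → (∀ z, (s (f (p z) x)).1 = false) →
      ∀ c, g (p c) x = f (p ((s x).2.1 1 c)) x) ∧
    (∀ x ∈ G, ∀ a, (∃ w, run f w x = g a x) ∧ ∃ w, run g w x = f a x) ∧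
    (∀ x ∈ G, (s x).1 = false → (∀ a, (s (f a x)).1 = false) →
      (Set.range fun a => g a x) = Set.range fun a => f a x)

/-- GEN. The new label generates. Proof (paper, end of section 5): let `GG` be the σ-algebra generated by
`s ∘ run g w`; by `S_BACK` each `f a` is `GG`-`GG`-measurable (on `G`), so `s ∘ run f w`, so
`l = enc p 0 f s` (a.e.) and the field of `l`, so `x` are `GG`-measurable up to null sets; `GG` is generated up
to null sets by the field of `enc p 1 g s` (as `s = dec (enc s)` a.e.). Factorise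
(`Measurable.exists_eq_measurable_comp`). -/
def S_GEN : Prop :=
  ∀ (S : Type) [Finite S] (βZ βD : S → S) (p : Bit → S) (e : unitInterval) (X : Type)
    [MeasurableSpace X] [StandardBorelSpace X] (μ : Measure X) [IsProbabilityMeasure μ]
    (f g : S → X → X) (s : X → Sk)
    (K K' : Bit → Bit → X → List S) (G : Set X), Exch βZ βD p μ f g s K K' G →
    ∀ l : X → Lb, Measurable l → Gen βZ μ f l → (∀ᵐ x ∂μ, enc p 0 f s x = l x) →
      (∀ᵐ x ∂μ, dec p 1 g (enc p 1 g s) x = s x) → Gen βD μ g (enc p 1 g s)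

/-! ### Spectral bound and tails -/

/-- P1. Counting words with a given reduced form. Proof: with `w(h) = (m-1)^{-|h|/2}` the average of
`w (ls β s h)` over `s` is at most `ρ w(h)`, `ρ = 2 √(m-1) / m`; induction on `n`. -/
def S_P1 : Prop :=
  ∀ (S : Type) [Fintype S] (β : S → S), (∀ s, β (β s) = s) → 2 ≤ Fintype.card S →
  ∀ (n : ℕ) (h : List S), Red β h →
    (Nat.card {u : Fin n → S // red β (List.ofFn u) = h} : ℝ) ≤
      (2 * Real.sqrt (Fintype.card S - 1)) ^ n * Real.sqrt (Fintype.card S - 1) ^ h.length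

/-- LCS. Log-convex sequences. -/
def S_LCS : Prop :=
  ∀ (a : ℕ → ℝ) (ρ C : ℝ), 0 ≤ ρ → (∀ k, 0 ≤ a k) → (∀ k, a (k + 1) ^ 2 ≤ a k * a (k + 2)) →
    (∀ k, a k ≤ C * ρ ^ k) → ∀ k, a k ≤ ρ ^ k * a 0

/-- CYL. Decay of correlations of cylinder functions under averages over words.
Proof: the integral for one word `u` vanishes unless `red u` is in a finite set (independence of disjoint sets
of coordinates, mean 0), otherwise it is at most `sup φ²`; `S_P1`. -/
def S_CYL : Prop :=
  ∀ (S : Type) [Fintype S] (β : S → S), (∀ s, β (β s) = s) → 2 ≤ Fintype.card S →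
  ∀ (X : Type) [MeasurableSpace X] (μ : Measure X) [IsProbabilityMeasure μ] (f : S → X → X),
    Sys β μ f →
  ∀ (L : Type) [MeasurableSpace L] (law : Measure L) [IsProbabilityMeasure law] (l : X → L),
    Bnl β μ f l law →
  ∀ (Q : Finset (List S)), (∀ w ∈ Q, Red β w) → ∀ φ : X → ℝ,
    Measurable[sig f l {w | w ∈ Q}] φ → (∃ b, ∀ x, |φ x| ≤ b) → ∫ x, φ x ∂μ = 0 →
    ∃ C, ∀ n : ℕ, |∑ u : Fin n → S, ∫ x, φ (run f (List.ofFn u) x) * φ x ∂μ| ≤
      C * (2 * Real.sqrt (Fintype.card S - 1)) ^ n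

/-- SPEC. The spectral bound in the form that is needed (paper, P2, P3, P4), with
`ρ = 2 √(m-1) / m`. Proof: `P φ = m⁻¹ ∑ s, φ ∘ f s` is a symmetric contraction of `L²(μ)` that maps functions of
the field to functions of the field; for a bounded cylinder function `φ` of mean 0 the numbers
`a k = ‖P^k φ‖₂` satisfy `S_LCS` (`a k ^ 2 = ⟨P^{2k} φ, φ⟩`, `S_CYL`), so `‖P^n φ‖ ≤ ρ^n ‖φ‖`; by density the same
for `φ = 1_B - μ(B)`. Then `0 = ⟨P^n 1_B, 1_A⟩ ≥ μ(A) μ(B) - ρ^n (μ(A) μ(B))^{1/2}`. -/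
def S_SPEC : Prop :=
  ∀ (S : Type) [Fintype S] (β : S → S), (∀ s, β (β s) = s) → 2 ≤ Fintype.card S →
  ∀ (X : Type) [MeasurableSpace X] (μ : Measure X) [IsProbabilityMeasure μ] (f : S → X → X),
    Sys β μ f →
  ∀ (L : Type) [MeasurableSpace L] (law : Measure L) [IsProbabilityMeasure law] (l : X → L),
    Bnl β μ f l law →
  ∀ A B : Set X, MeasurableSet[sig f l {w | Red β w}] A →
    MeasurableSet[sig f l {w | Red β w}] B → μ A = μ B → ∀ n : ℕ,
    (∀ h, Red β h → h.length ≤ n → μ (A ∩ run f h ⁻¹' B) = 0) →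
    μ A ≤ ENNReal.ofReal ((2 * Real.sqrt (Fintype.card S - 1) / Fintype.card S) ^ n)

/-- The tail condition between two families of maps. -/
def Tail {S X : Type} [MeasurableSpace X] (μ : Measure X) (f g : S → X → X) (C c α : ℝ) : Prop :=
  ∀ (n : ℕ) (a : S), μ {x | ¬ ∃ w : List S, w.length ≤ n ∧ run f w x = g a x} ≤
    ENNReal.ofReal (C * Real.exp (-(c * (n : ℝ) ^ α)))

/-- TAIL1. Exponential tails of one exchange, if there are at least three H-letters.
Proof: `S_SPEC` for the H-letters (`S_SUB`) and the sets of `TailSets` give `μ {n < |K|} ≤ ρ^n` with `ρ < 1`;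
the word of `g (p c) x` is `K' ++ p z :: K(y)`, and `y` is distributed as `μ` on `{a_{z+1} = c}`; the same for the
word of `f (p z) x` from `S_BACK`. -/
def S_TAIL1 : Prop :=
  ∀ (S : Type) [Fintype S] (βZ βD : S → S) (p : Bit → S) (e : unitInterval) (X : Type)
    [MeasurableSpace X] (μ : Measure X) [IsProbabilityMeasure μ] (f g : S → X → X) (s : X → Sk)
    (K K' : Bit → Bit → X → List S) (G : Set X), Exch βZ βD p μ f g s K K' G →
    TM βZ p 0 e μ f s → (∀ z c, TailSets βZ p μ f s (K z c) (K' z c)) →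
    3 ≤ Nat.card {a : S // a ∉ Set.range p} →
    ∃ C c : ℝ, 0 < c ∧ Tail μ f g C c 1 ∧ Tail μ g f C c 1

/-- A good system: Bernoulli and generating, with labels in `[0,1]`. -/
structure Good {S X : Type} [MeasurableSpace X] (β : S → S) (μ : Measure X) (f : S → X → X)
    (l : X → unitInterval) : Prop where
  sys : Sys β μ f
  bnl : Bnl β μ f l volume
  gen : Gen β μ f l

/-- STEP. The step theorem (paper, section 2). Proof: `S_ISO` and `S_RELAB` (labels in `Lb` with law
`lawL e`), `S_COD`, `S_EXCH`, `S_EX`, `S_REC`, `S_GEN`, `S_RELAB` back, `S_BACK`, `S_TAIL1`, `S_PRB`;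
`Mk = {x | (s x).1 = true}`. -/
def S_STEP : Prop :=
  ∀ (S : Type) [Fintype S] (βZ βD : S → S) (p : Bit → S), Fr βZ p 0 → Fr βD p 1 →
    (∀ a, a ∉ Set.range p → βZ a = βD a) →
    (∃ a b : S, a ≠ b ∧ a ∉ Set.range p ∧ b ∉ Set.range p) →
  ∀ (X : Type) [MeasurableSpace X] [StandardBorelSpace X] (μ : Measure X)
    [IsProbabilityMeasure μ] (f : S → X → X) (l : X → unitInterval), Good βZ μ f l →
  ∀ e : unitInterval, 0 < e →
    ∃ (g : S → X → X) (l' : X → unitInterval) (Mk G : Set X), Good βD μ g l' ∧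
      MeasurableSet Mk ∧ μ Mk = ENNReal.ofReal e ∧ MeasurableSet G ∧ μ Gᶜ = 0 ∧
      (∀ x ∈ G, ∀ a, f a x ∈ G ∧ g a x ∈ G) ∧
      (∀ x ∈ G, ∀ a, (∃ w, run f w x = g a x) ∧ ∃ w, run g w x = f a x) ∧
      (∀ x ∈ G, x ∉ Mk → (∀ a, f a x ∉ Mk) →
        (Set.range fun a => g a x) = Set.range fun a => f a x) ∧
      (3 ≤ Nat.card {a : S // a ∉ Set.range p} →
        ∃ C c : ℝ, 0 < c ∧ Tail μ f g C c 1 ∧ Tail μ g f C c 1)

end Pool.Agent.Helper73.OB
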