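import Mathlib

/-!
Project OB (MP_fc0446_an): definitions. See `paper.md` in this folder.

`S` is the set of letters, `β : S → S` an involution, `p 0, p 1` the two special letters, `δ = 0` in case
Z and `δ = 1` in case D. Words are lists of letters, the first letter is applied first.
-/

open MeasureTheory
open scoped ENNReal

namespace Pool.Agent.Helper73.OB

/-- Bits. -/
abbrev Bit : Type := ZMod 2

/-- The frame of one step: `β` is an involution, `β (p z) = p (z+1+δ)`. Case Z: `δ = 0`, `β` swaps
`p 0, p 1`. Case D: `δ = 1`, `β` fixes them. -/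
structure Fr {S : Type} (β : S → S) (p : Bit → S) (δ : Bit) : Prop where
  inv : ∀ s, β (β s) = s
  inj : Function.Injective p
  bp : ∀ z, β (p z) = p (z + 1 + δ)

section Words

variable {S : Type}

/-- Reduced words. -/
def Red (β : S → S) (w : List S) : Prop := w.IsChain fun a b => b ≠ β a

/-- The set of reduced words. -/
abbrev RW (β : S → S) : Type := {w : List S // Red β w}

/-- Words over the letters different from `p 0, p 1`. -/
def IsH (p : Bit → S) (w : List S) : Prop := ∀ a ∈ w, a ∉ Set.range p

/-- Reduced H-words. -/
abbrev HW (β : S → S) (p : Bit → S) : Type := {w : List S // Red β w ∧ IsH p w}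

open Classical in
/-- Left multiplication by a letter. -/
noncomputable def ls (β : S → S) (s : S) (w : List S) : List S :=
  if w.head? = some (β s) then w.tail else s :: w

/-- The reduced form of a word. -/
noncomputable def red (β : S → S) (u : List S) : List S := u.foldr (ls β) []

theorem Red.ls {β : S → S} {w : List S} (h : Red β w) (s : S) : Red β (ls β s w) := by
  unfold OB.ls
  split_ifs with h1
  · exact List.IsChain.tail h
  · cases w with
    | nil => exact List.isChain_singleton _
    | cons b w =>
      refine List.isChain_cons_cons.2 ⟨?_, h⟩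
      intro hb
      apply h1
      rw [hb]
      rfl

theorem red_Red (β : S → S) (u : List S) : Red β (red β u) := by
  induction u with
  | nil => exact List.isChain_nil
  | cons a u ih => exact ih.ls a

/-- The inverse word. -/
def invw (β : S → S) (w : List S) : List S := (w.map β).reverse

open Classical in
/-- The number of `P`-letters of a word. -/
noncomputable def pc (p : Bit → S) (w : List S) : ℕ := w.countP fun a => decide (a ∈ Set.range p)

/-- The reduced words not starting with `a`. -/
def Side (β : S → S) (a : S) : Set (List S) := {w | Red β w ∧ w.head? ≠ some a}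

/-- The straight word `p z, p (z+δ), p (z+2δ), …` of length `k` (paper: `u_k`). -/
def uw (p : Bit → S) (δ : Bit) (k : ℕ) (z : Bit) : List S :=
  (List.range k).map fun j => p (z + (j : Bit) * δ)

end Words

section Systems

variable {S X : Type}

/-- `f_w`, first letter first. -/
def run (f : S → X → X) (w : List S) (x : X) : X := w.foldl (fun y s => f s y) x

/-- A `β`-system. -/
structure Sys [MeasurableSpace X] (β : S → S) (μ : Measure X) (f : S → X → X) : Prop where
  mp : ∀ s, MeasurePreserving (f s) μ μ
  inv : ∀ s x, f (β s) (f s x) = x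

/-- The field of `l` seen from `x`. -/
def field {L : Type} (β : S → S) (f : S → X → X) (l : X → L) (x : X) : RW β → L :=
  fun w => l (run f w.1 x)

/-- The iid law on fields. -/
noncomputable abbrev iid {L : Type} [MeasurableSpace L] (β : S → S) (law : Measure L) :
    Measure (RW β → L) := Measure.infinitePi fun _ : RW β => law

/-- The label map `l` is Bernoulli with the law `law`. -/
def Bnl {L : Type} [MeasurableSpace X] [MeasurableSpace L] (β : S → S) (μ : Measure X)
    (f : S → X → X) (l : X → L) (law : Measure L) : Prop :=
  Measurable l ∧ MeasurePreserving (field β f l) μ (iid β law)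

/-- The label map `l` is generating. -/
def Gen {L : Type} [MeasurableSpace X] [MeasurableSpace L] (β : S → S) (μ : Measure X)
    (f : S → X → X) (l : X → L) : Prop :=
  ∃ ρ : (RW β → L) → X, Measurable ρ ∧ ∀ᵐ x ∂μ, ρ (field β f l x) = x

/-- The maps of the Bernoulli model, `(F_s ω)(w) = ω(L_s w)`. -/
noncomputable def shiftR {L : Type} (β : S → S) (s : S) (ω : RW β → L) : RW β → L :=
  fun w => ω ⟨ls β s w.1, w.2.ls s⟩

/-- The root of the Bernoulli model. -/
def rootW (β : S → S) : RW β := ⟨[], List.isChain_nil⟩

end Systems

/-! ### Skeletons and labels -/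

/-- Skeleton values `(M, bits, V, r)`; `bits 0` are the Z-bits `a`, `bits 1` the D-bits `o`. -/
abbrev Sk : Type := Bool × (Bit → Bit → Bit) × unitInterval × (Bit → unitInterval)

/-- Labels `(M, e, V, q)`. -/
abbrev Lb : Type := Bool × (Bit → Bit) × unitInterval × (Bit → unitInterval)

/-- Labels of model 3: `(M, e, V, r, o)`. -/
abbrev Lb3 : Type := Bool × (Bit → Bit) × unitInterval × (Bit → unitInterval) × (Bit → Bit)

/-- The law of a fair bit. -/
noncomputable def fair : Measure Bit := (2⁻¹ : ℝ≥0∞) • (Measure.dirac 0 + Measure.dirac 1)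

/-- The law of the marker bit. -/
noncomputable def ber (e : unitInterval) : Measure Bool :=
  ENNReal.ofReal e • Measure.dirac true + ENNReal.ofReal (1 - e) • Measure.dirac false

/-- Lebesgue measure on `[0,1]`. -/
noncomputable abbrev uni : Measure unitInterval := volume

/-- Two fair bits. -/
noncomputable abbrev fair2 : Measure (Bit → Bit) := Measure.pi fun _ => fair

/-- Two uniform reals. -/
noncomputable abbrev uni2 : Measure (Bit → unitInterval) := Measure.pi fun _ => uni

/-- The skeleton law `κ`. -/
noncomputable def kap (e : unitInterval) : Measure Sk :=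
  (((ber e).prod ((Measure.pi fun _ : Bit => fair2).prod (uni.prod uni2)))).map fun s =>
    (s.1, (if s.1 = true then s.2.1 else fun _ z => s.2.1 0 0 + z), s.2.2.1, s.2.2.2)

/-- The label law `ℓ`. -/
noncomputable def lawL (e : unitInterval) : Measure Lb :=
  ((ber e).prod (fair2.prod (uni.prod uni2))).map fun s =>
    (s.1, (if s.1 = true then s.2.1 else 0), s.2.2.1, s.2.2.2)

/-- The label law of model 3. -/
noncomputable def lawL3 (e : unitInterval) : Measure Lb3 :=
  (ber e).prod (fair2.prod (uni.prod (uni2.prod fair2)))

/-- `pack (o, r) = (o + r) / 2`. -/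
noncomputable def pack (o : Bit) (r : unitInterval) : unitInterval :=
  ⟨((o.val : ℝ) + r) / 2, by
    have h1 := r.2.1
    have h2 := r.2.2
    have h3 : (o.val : ℝ) ≤ 1 := by
      have := ZMod.val_lt o
      exact_mod_cast Nat.lt_succ_iff.mp this
    constructor
    · positivity
    · linarith⟩

/-- The inverse of `pack` (almost everywhere). -/
noncomputable def unpack (q : unitInterval) : Bit × unitInterval :=
  if h : (q : ℝ) < 1 / 2 then (0, ⟨2 * q, by have := q.2.1; constructor <;> linarith⟩)
  else (1, ⟨2 * q - 1, by have := q.2.2; constructor <;> linarith⟩)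

/-! ### Blocks -/

section Blocks

variable {S X : Type} (p : Bit → S) (δ : Bit) (f : S → X → X) (M : X → Bool)

/-- `k(x,p_z)`. -/
noncomputable def kfar (x : X) (z : Bit) : ℕ := sInf {k | 1 ≤ k ∧ M (run f (uw p δ k z) x) = true}

/-- The vertex of the far end. -/
noncomputable def pfar (x : X) (z : Bit) : X := run f (uw p δ (kfar p δ f M x z) z) x

/-- The slot of the far end. -/
noncomputable def sfar (x : X) (z : Bit) : Bit := z + 1 + (kfar p δ f M x z : Bit) * δ

/-- `knear(x,p_z)`. -/
noncomputable def knear (x : X) (z : Bit) : ℕ := if M x = true then 0 else kfar p δ f M x (z + 1)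

/-- The vertex of the near end. -/
noncomputable def pnear (x : X) (z : Bit) : X := if M x = true then x else pfar p δ f M x (z + 1)

/-- The slot of the near end. -/
noncomputable def snear (x : X) (z : Bit) : Bit := if M x = true then z else sfar p δ f M x (z + 1)

open Classical in
/-- The own bit of the half-edge `(x, p_z)`; `o` gives the block bits at the marker slots. -/
noncomputable def bitAt (V : X → unitInterval) (o : X → Bit → Bit) (x : X) (z : Bit) : Bit :=
  if V (pfar p δ f M x z) < V (pnear p δ f M x z) then
    o (pnear p δ f M x z) (snear p δ f M x z) + (knear p δ f M x z : Bit) * (δ + 1)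
  else
    o (pfar p δ f M x z) (sfar p δ f M x z) + ((kfar p δ f M x z : Bit) + 1) * (δ + 1) + δ

/-- The slot `(x, p_z)` stores its block bit. -/
def Stores (V : X → unitInterval) (x : X) (z : Bit) : Prop :=
  M x = true ∧ V (pfar p δ f M x z) < V x

end Blocks

section Coding

variable {S X : Type} (p : Bit → S) (δ : Bit) (f : S → X → X)

/-- The skeleton of model 3. -/
noncomputable def S3 (l : X → Lb3) (x : X) : Sk :=
  let b := bitAt p δ f (fun y => (l y).1) (fun y => (l y).2.2.1) (fun y => (l y).2.2.2.2)
  ((l x).1, (fun d z => if d = δ then b x z else if (l x).1 = true then (l x).2.1 z else b x z),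
    (l x).2.2.1, (l x).2.2.2.1)

open Classical in
/-- The map from model 3 to labels. -/
noncomputable def E3 (l : X → Lb3) (x : X) : Lb :=
  ((l x).1, (if (l x).1 = true then (l x).2.1 else 0), (l x).2.2.1, fun z =>
    if Stores p δ f (fun y => (l y).1) (fun y => (l y).2.2.1) x z then
      pack ((l x).2.2.2.2 z) ((l x).2.2.2.1 z) else (l x).2.2.2.1 z)

open Classical in
/-- Encoding: labels from skeletons. -/
noncomputable def enc (s : X → Sk) (x : X) : Lb :=
  ((s x).1, (if (s x).1 = true then (s x).2.1 (δ + 1) else 0), (s x).2.2.1, fun z =>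
    if Stores p δ f (fun y => (s y).1) (fun y => (s y).2.2.1) x z then
      pack ((s x).2.1 δ z) ((s x).2.2.2 z) else (s x).2.2.2 z)

open Classical in
/-- Decoding: skeletons from labels. -/
noncomputable def dec (l : X → Lb) (x : X) : Sk :=
  let b := bitAt p δ f (fun y => (l y).1) (fun y => (l y).2.2.1)
    (fun y z => (unpack ((l y).2.2.2 z)).1)
  ((l x).1, (fun d z => if d = δ then b x z else if (l x).1 = true then (l x).2.1 z else b x z),
    (l x).2.2.1, fun z =>
      if Stores p δ f (fun y => (l y).1) (fun y => (l y).2.2.1) x z then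
        (unpack ((l x).2.2.2 z)).2 else (l x).2.2.2 z)

end Coding

/-! ### Typed Markov systems -/

section TMdef

variable {S X : Type}

/-- The σ-algebra generated by `s ∘ f_w`, `w ∈ Q`. -/
abbrev sig {L : Type} [MeasurableSpace L] (f : S → X → X) (s : X → L) (Q : Set (List S)) :
    MeasurableSpace X :=
  ⨆ w ∈ Q, MeasurableSpace.comap (fun x => s (run f w x)) inferInstance

/-- Typed Markov systems (paper, section 3). -/
structure TM [MeasurableSpace X] (β : S → S) (p : Bit → S) (δ : Bit) (e : unitInterval)
    (μ : Measure X) (f : S → X → X) (s : X → Sk) : Prop where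
  meas : Measurable s
  cos : MeasurePreserving (fun x (h : HW β p) => s (run f h.1 x)) μ
    (Measure.infinitePi fun _ : HW β p => kap e)
  glue : ∀ (z c : Bit) (E F : Set X), MeasurableSet[sig f s (Side β (p z))] E →
    MeasurableSet[sig f s (Side β (β (p z)))] F →
      μ ({x | (s x).2.1 δ z = c} ∩ E ∩ f (p z) ⁻¹' F) =
        2 * μ ({x | (s x).2.1 δ z = c} ∩ E) * μ ({x | (s x).2.1 δ (z + 1 + δ) = c + δ} ∩ F)

end TMdef

end Pool.Agent.Helper73.OB
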