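import Pool.Agent.Helper73.OB.Words

/-!
Project OB (MP_fc0446_an), goals A: the Bernoulli models, blocks and the coding theorem.
Text proofs: `paper.md` in this folder, sections 1, 3, 4. Each packet proves one `S_...` (as a theorem with
the same name in small letters), other `S_...` may be used as hypotheses.
-/

open MeasureTheory ProbabilityTheory
open scoped ENNReal

namespace Pool.Agent.Helper73.OB

/-- MODSYS. The Bernoulli model is a system and its root label is Bernoulli.
Proof: `shiftR_inv`; `shiftR β s` permutes coordinates by `lsEquiv` (e.g.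
`Measure.infinitePi_map_piCongrLeft` or `Measure.map_infinitePi_infinitePi_of_inj`); `field_model`. -/
def S_MODSYS : Prop :=
  ∀ (S : Type) [Finite S] (β : S → S), (∀ s, β (β s) = s) →
  ∀ (L : Type) [MeasurableSpace L] (law : Measure L) [IsProbabilityMeasure law],
    Sys β (iid β law) (shiftR (L := L) β) ∧
    Bnl β (iid β law) (shiftR β) (fun ω : RW β → L => ω (rootW β)) law

/-- PRB. The laws are probability measures, `kap e`, `lawL e` have no atoms, the projections. -/
def S_PRB : Prop :=
  IsProbabilityMeasure fair ∧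
  ∀ e : unitInterval, IsProbabilityMeasure (ber e) ∧ IsProbabilityMeasure (kap e) ∧
    IsProbabilityMeasure (lawL e) ∧ IsProbabilityMeasure (lawL3 e) ∧ NullSingletonClass (kap e) ∧
    NullSingletonClass (lawL e) ∧
    kap e {s | s.1 = true} = ENNReal.ofReal e ∧
    lawL3 e {s | s.1 = true} = ENNReal.ofReal e ∧
    (∀ t : unitInterval, lawL3 e {s | s.2.2.1 = t} = 0) ∧
    (∀ d z c : Bit, kap e {s | s.2.1 d z = c} = 2⁻¹) ∧
    (∀ d z c : Bit, kap e {s | s.1 = true ∧ s.2.1 d z = c} = ENNReal.ofReal e / 2) ∧
    (∀ᵐ s ∂(kap e), s.1 = false → ∀ d z, s.2.1 d z = s.2.1 0 0 + z)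

/-- PACK. `pack` is measure preserving and `unpack` inverts it. -/
def S_PACK : Prop :=
  Measurable (fun x : Bit × unitInterval => pack x.1 x.2) ∧ Measurable unpack ∧
  (∀ o : Bit, ∀ r : unitInterval, (r : ℝ) < 1 → unpack (pack o r) = (o, r)) ∧
  (fair.prod uni).map (fun x : Bit × unitInterval => pack x.1 x.2) = uni

/-- MEAS. Measurability of the codings. Proof: countably many values of `kfar`; `pfar` is piecewise a run. -/
def S_MEAS : Prop :=
  ∀ (S X : Type) [Finite S] [MeasurableSpace X] (p : Bit → S) (δ : Bit) (f : S → X → X),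
    (∀ s, Measurable (f s)) →
    (∀ (M : X → Bool) (V : X → unitInterval) (o : X → Bit → Bit) (z : Bit), Measurable M →
      Measurable V → Measurable o →
      Measurable (fun x => kfar p δ f M x z) ∧ Measurable (fun x => pfar p δ f M x z) ∧
      Measurable (fun x => pnear p δ f M x z) ∧ Measurable (fun x => bitAt p δ f M V o x z)) ∧
    (∀ l : X → Lb3, Measurable l → Measurable (S3 p δ f l) ∧ Measurable (E3 p δ f l)) ∧
    (∀ s : X → Sk, Measurable s → Measurable (enc p δ f s)) ∧
    (∀ l : X → Lb, Measurable l → Measurable (dec p δ f l))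

/-- NAT. Naturality of the block functions and of the codings under equivariant maps.
Proof: `run_equivariant`. -/
def S_NAT : Prop :=
  ∀ (S X X' : Type) (p : Bit → S) (δ : Bit) (f : S → X → X) (f' : S → X' → X') (π : X → X'),
    (∀ s x, π (f s x) = f' s (π x)) →
    (∀ (M : X' → Bool) (x : X) (z : Bit),
      kfar p δ f (fun y => M (π y)) x z = kfar p δ f' M (π x) z ∧
      π (pfar p δ f (fun y => M (π y)) x z) = pfar p δ f' M (π x) z) ∧
    (∀ (l : X' → Lb3) (x : X), S3 p δ f (fun y => l (π y)) x = S3 p δ f' l (π x) ∧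
      E3 p δ f (fun y => l (π y)) x = E3 p δ f' l (π x)) ∧
    (∀ (s : X' → Sk) (x : X), enc p δ f (fun y => s (π y)) x = enc p δ f' s (π x)) ∧
    (∀ (l : X' → Lb) (x : X), dec p δ f (fun y => l (π y)) x = dec p δ f' l (π x))

/-- FAR. Almost surely all far ends exist, and the reals `V` at different ends are different.
Proof: the words `uw p δ k z` (`k ≥ 1`, `z`) are reduced (by `Fr`), pairwise different and different from
`[]`; the labels there are independent; so no marker for `k = 1..n` has probability `(1-P)^n`; and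
`v(l(run u x)) = v(l(run w x))` is null for `u ≠ w` reduced. -/
def S_FAR : Prop :=
  ∀ (S : Type) [Finite S] (β : S → S) (p : Bit → S) (δ : Bit), Fr β p δ →
  ∀ (X : Type) [MeasurableSpace X] (μ : Measure X) [IsProbabilityMeasure μ] (f : S → X → X),
    Sys β μ f →
  ∀ (L : Type) [MeasurableSpace L] (law : Measure L) [IsProbabilityMeasure law] (l : X → L),
    Bnl β μ f l law →
  ∀ (m : L → Bool) (v : L → unitInterval), Measurable m → Measurable v →
    0 < law {a | m a = true} → (∀ t, law {a | v a = t} = 0) →
    ∀ᵐ x ∂μ, ∀ z : Bit,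
      (∃ k, 1 ≤ k ∧ m (l (run f (uw p δ k z) x)) = true) ∧
      v (l (pfar p δ f (fun y => m (l y)) x z)) ≠ v (l x) ∧
      v (l (pfar p δ f (fun y => m (l y)) x z)) ≠
        v (l (pfar p δ f (fun y => m (l y)) x (z + 1)))

/-- UW. The straight words. -/
def S_UW : Prop :=
  ∀ (S : Type) (β : S → S) (p : Bit → S) (δ : Bit), Fr β p δ →
    (∀ k z, Red β (uw p δ k z) ∧ (uw p δ k z).length = k) ∧
    (∀ k z, uw p δ (k + 1) z = p z :: uw p δ k (z + δ)) ∧
    (∀ k z, uw p δ (k + 1) z = uw p δ k z ++ [p (z + (k : Bit) * δ)]) ∧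
    (∀ k z, invw β (uw p δ k z) = uw p δ k (z + 1 + (k : Bit) * δ)) ∧
    (∀ k k' z z', 1 ≤ k → uw p δ k z = uw p δ k' z' → k = k' ∧ z = z')

/-- BLK. Geometry of blocks (paper, R1, R2 and the partner of a slot). Everything is for one point `x`
from which both far ends exist. -/
def S_BLK : Prop :=
  ∀ (S X : Type) (β : S → S) (p : Bit → S) (δ : Bit), Fr β p δ →
  ∀ (f : S → X → X), (∀ s x, f (β s) (f s x) = x) →
  ∀ (M : X → Bool) (x : X), (∀ z : Bit, ∃ k, 1 ≤ k ∧ M (run f (uw p δ k z) x) = true) →
  ∀ z : Bit,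
    -- R1, with `y = f (p z) x` and the half-edge `β (p z) = p (z+1+δ)` at `y`
    (pfar p δ f M (f (p z) x) (z + 1 + δ) = pnear p δ f M x z ∧
      sfar p δ f M (f (p z) x) (z + 1 + δ) = snear p δ f M x z ∧
      kfar p δ f M (f (p z) x) (z + 1 + δ) = knear p δ f M x z + 1 ∧
      pnear p δ f M (f (p z) x) (z + 1 + δ) = pfar p δ f M x z ∧
      snear p δ f M (f (p z) x) (z + 1 + δ) = sfar p δ f M x z ∧
      knear p δ f M (f (p z) x) (z + 1 + δ) + 1 = kfar p δ f M x z) ∧
    -- the ends are markers, and partners of each other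
    (M (pfar p δ f M x z) = true ∧ M (pnear p δ f M x z) = true ∧
      pfar p δ f M (pfar p δ f M x z) (sfar p δ f M x z) = pnear p δ f M x z ∧
      sfar p δ f M (pfar p δ f M x z) (sfar p δ f M x z) = snear p δ f M x z ∧
      pfar p δ f M (pnear p δ f M x z) (snear p δ f M x z) = pfar p δ f M x z ∧
      sfar p δ f M (pnear p δ f M x z) (snear p δ f M x z) = sfar p δ f M x z)

/-- BIT. The edge rule and the pass rule for the own bits. Proof: `S_BLK` (R1), and for a non-marker near
and far of `(x,z+1)` are far and near of `(x,z)`. -/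
def S_BIT : Prop :=
  ∀ (S X : Type) (β : S → S) (p : Bit → S) (δ : Bit), Fr β p δ →
  ∀ (f : S → X → X), (∀ s x, f (β s) (f s x) = x) →
  ∀ (M : X → Bool) (V : X → unitInterval) (o : X → Bit → Bit) (x : X),
    (∀ z : Bit, ∃ k, 1 ≤ k ∧ M (run f (uw p δ k z) x) = true) →
    (∀ z : Bit, V (pfar p δ f M x z) ≠ V (pnear p δ f M x z)) →
    ∀ z : Bit,
      bitAt p δ f M V o (f (p z) x) (z + 1 + δ) = bitAt p δ f M V o x z + δ ∧
      (M x = false → bitAt p δ f M V o x (z + 1) = bitAt p δ f M V o x z + 1) ∧
      (M (f (p z) x) = false →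
        bitAt p δ f M V o (f (p z) x) (z + δ) = bitAt p δ f M V o x z + δ + 1)

/-- COD2B. Decoding the labels `E3` gives the skeleton `S3`, encoding `S3` gives `E3`.
Proof: `S_FAR` (for `M` and `V`), `r < 1` almost surely at all vertices, `S_BLK`: the winner slot of a block
stores its bit (its partner is the other end), `S_PACK`. -/
def S_COD2B : Prop :=
  ∀ (S : Type) [Finite S] (β : S → S) (p : Bit → S) (δ : Bit), Fr β p δ →
  ∀ (e : unitInterval), 0 < e →
  ∀ (X : Type) [MeasurableSpace X] (μ : Measure X) [IsProbabilityMeasure μ] (f : S → X → X),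
    Sys β μ f → ∀ l : X → Lb3, Bnl β μ f l (lawL3 e) →
    ∀ᵐ x ∂μ, dec p δ f (E3 p δ f l) x = S3 p δ f l x ∧ enc p δ f (S3 p δ f l) x = E3 p δ f l x

/-- SKEW. Random coordinatewise maps: if for every `a` and `i` the map `T a i` sends `ν` to `ν'`, then
`(a,b) ↦ (a, (T a i (b i))_i)` sends `α ⊗ ν^ι` to `α ⊗ ν'^ι`. -/
def S_SKEW : Prop :=
  ∀ (ι A B C : Type) [Countable ι] [MeasurableSpace A] [MeasurableSpace B] [MeasurableSpace C]
    (α : Measure A) (ν : Measure B) (ν' : Measure C) [IsProbabilityMeasure α]
    [IsProbabilityMeasure ν] [IsProbabilityMeasure ν'] (T : A → ι → B → C),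
    (∀ i, Measurable fun x : A × B => T x.1 i x.2) → (∀ a i, ν.map (T a i) = ν') →
    MeasurePreserving (fun x : A × (ι → B) => (x.1, fun i => T x.1 i (x.2 i)))
      (α.prod (Measure.infinitePi fun _ : ι => ν)) (α.prod (Measure.infinitePi fun _ : ι => ν'))

/-- E3MP. The map from model 3 to the label model is measure preserving.
Proof: split the coordinates of model 3 in `(M,e,V)` and `(r,o)`; whether a slot stores its bit depends only
on the field of `(M,V)`; `S_SKEW` with `T a w (r,o) = fun z => if Stores then pack (o z) (r z) else r z`,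
`S_PACK`; at the end `e` is replaced by `0` if `M = false`. -/
def S_E3MP : Prop :=
  ∀ (S : Type) [Finite S] (β : S → S) (p : Bit → S) (δ : Bit), Fr β p δ → ∀ (e : unitInterval),
    MeasurePreserving
      (field β (shiftR β) (E3 p δ (shiftR β) (fun ω : RW β → Lb3 => ω (rootW β))))
      (iid β (lawL3 e)) (iid β (lawL e))

/-- GROUP. If `Φ` depends only on the coordinates `[]` and `p_z ...`, then the values of `Φ` seen from the
reduced H-words are iid. Proof: the sets of words `{h} ∪ {h p_z ...}` are disjoint for different `h`. -/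
def S_GROUP : Prop :=
  ∀ (S : Type) [Finite S] (β : S → S) (p : Bit → S) (δ : Bit), Fr β p δ →
  ∀ (L T : Type) [MeasurableSpace L] [MeasurableSpace T] (law : Measure L)
    [IsProbabilityMeasure law] (Φ : (RW β → L) → T), Measurable Φ →
    (∀ ω ω' : RW β → L, (∀ w : RW β, (w.1 = [] ∨ ∃ z, w.1.head? = some (p z)) → ω w = ω' w) →
      Φ ω = Φ ω') →
    MeasurePreserving (fun (ω : RW β → L) (h : HW β p) => Φ (run (shiftR β) h.1 ω))
      (iid β law) (Measure.infinitePi fun _ : HW β p => (iid β law).map Φ)

/-- ROOT. The law of the skeleton value at the root of model 3, and its dependence on the coordinates.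
Proof (flip argument, paper COD1, TM1): `M, e, V, r` come from the root label. Flipping `o` at all words that
start with `p z` and `o z` at the root is measure preserving, changes `bitAt _ z` by 1 and (if `M = true`)
keeps `bitAt _ (z+1)`; flipping all `o` everywhere changes both bits. Almost surely, if `M = false` then
`bitAt _ (z+1) = bitAt _ z + 1` (`S_BIT`, `S_FAR`). -/
def S_ROOT : Prop :=
  ∀ (S : Type) [Finite S] (β : S → S) (p : Bit → S) (δ : Bit), Fr β p δ →
  ∀ (e : unitInterval), 0 < e →
    (iid β (lawL3 e)).map (S3 p δ (shiftR β) (fun ω : RW β → Lb3 => ω (rootW β))) = kap e ∧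
    ∀ ω ω' : RW β → Lb3, (∀ w : RW β, (w.1 = [] ∨ ∃ z, w.1.head? = some (p z)) → ω w = ω' w) →
      S3 p δ (shiftR β) (fun ω : RW β → Lb3 => ω (rootW β)) ω =
        S3 p δ (shiftR β) (fun ω : RW β → Lb3 => ω (rootW β)) ω'

/-- The word of the near end of `(root, z)` in the model. -/
noncomputable def nearWord {S : Type} (β : S → S) (p : Bit → S) (δ : Bit) (ω : RW β → Lb3)
    (z : Bit) : List S :=
  if (ω (rootW β)).1 = true then []
  else uw p δ (kfar p δ (shiftR β) (fun ω : RW β → Lb3 => (ω (rootW β)).1) ω (z + 1)) (z + 1)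

/-- LOCB (locality of the bits). If `ω, ω'` agree on the words not starting with `p z`, except for the
`o`-bit at the near slot of `(root,z)`, and the block bits of the half-edge `(root,z)` agree, then the
skeletons agree on the words not starting with `p z`.
Proof: for `w` on this side and a direction `t`, follow the block of `(w,t)` in both directions. If it stays
on this side, nothing changes (the near slot of `(root,z)` is not an end of it). Otherwise one of the
directions reaches the root through non-markers and the bit is `bitAt root z` plus a number that depends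
only on the number of steps (`S_BIT`: edge rule and pass rule, induction on the number of steps). -/
def S_LOCB : Prop :=
  ∀ (S : Type) (β : S → S) (p : Bit → S) (δ : Bit), Fr β p δ → ∀ (z : Bit) (ω ω' : RW β → Lb3),
    let M : (RW β → Lb3) → Bool := fun ω => (ω (rootW β)).1
    let V : (RW β → Lb3) → unitInterval := fun ω => (ω (rootW β)).2.2.1
    let o : (RW β → Lb3) → Bit → Bit := fun ω => (ω (rootW β)).2.2.2.2
    (∀ w : RW β, w.1 ∈ Side β (p z) →
      (ω w).1 = (ω' w).1 ∧ (ω w).2.1 = (ω' w).2.1 ∧ (ω w).2.2.1 = (ω' w).2.2.1 ∧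
      (ω w).2.2.2.1 = (ω' w).2.2.2.1 ∧
      ∀ t, (ω w).2.2.2.2 t = (ω' w).2.2.2.2 t ∨
        (w.1 = nearWord β p δ ω z ∧ t = snear p δ (shiftR β) M ω z)) →
    (∀ w ∈ Side β (p z), ∀ t, ∀ η ∈ ({ω, ω'} : Set (RW β → Lb3)),
      (∃ k, 1 ≤ k ∧ M (run (shiftR β) (uw p δ k t) (run (shiftR β) w η)) = true) ∧
      V (pfar p δ (shiftR β) M (run (shiftR β) w η) t) ≠
        V (pnear p δ (shiftR β) M (run (shiftR β) w η) t)) →
    bitAt p δ (shiftR β) M V o ω z = bitAt p δ (shiftR β) M V o ω' z →
    ∀ w ∈ Side β (p z),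
      S3 p δ (shiftR β) (fun ω : RW β → Lb3 => ω (rootW β)) (run (shiftR β) w ω) =
        S3 p δ (shiftR β) (fun ω : RW β → Lb3 => ω (rootW β)) (run (shiftR β) w ω')

/-- GLUE3. The gluing property (TM2) of the skeleton in model 3.
Proof (paper COD1, TM2). Normal form for `c : Bit`: `N ω` = `ω` on the words not starting with `p z`, with
the `o`-bit at the near slot of `(root,z)` replaced by 0, and the label `(true,0,1,0,fun _ => c+δ)` at all
words starting with `p z`; then `bitAt (N ω) z = c` (the far end `p z` wins). By `S_LOCB` (a.e.), if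
`bitAt ω z = c`, the side field of `ω` is a fixed function `g` of `N ω`. The same at `y = F_{p z} ω` for the
half-edge `z+1+δ` and the bit `c+δ`. The flip `T` of the `o`-bits at the near slots of `(root,z)` and of
`(y,z+1+δ)` is measure preserving, changes `bitAt ω z` by 1 and does not change the two normal forms; the
normal forms depend on disjoint sets of coordinates, so are independent. -/
def S_GLUE3 : Prop :=
  ∀ (S : Type) [Finite S] (β : S → S) (p : Bit → S) (δ : Bit), Fr β p δ →
  ∀ (e : unitInterval), 0 < e →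
    let s := S3 p δ (shiftR β) (fun ω : RW β → Lb3 => ω (rootW β))
    ∀ (z c : Bit) (E F : Set (RW β → Lb3)), MeasurableSet[sig (shiftR β) s (Side β (p z))] E →
      MeasurableSet[sig (shiftR β) s (Side β (β (p z)))] F →
      iid β (lawL3 e) ({x | (s x).2.1 δ z = c} ∩ E ∩ shiftR β (p z) ⁻¹' F) =
        2 * iid β (lawL3 e) ({x | (s x).2.1 δ z = c} ∩ E) *
          iid β (lawL3 e) ({x | (s x).2.1 δ (z + 1 + δ) = c + δ} ∩ F)

/-- TRANS. Typed Markov systems and factor maps, in both directions. Proof: `sig_iff`; sets of the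
σ-algebras correspond under `π` up to null sets; measurability of `s, s'` is assumed. -/
def S_TRANS : Prop :=
  ∀ (S : Type) [Finite S] (β : S → S) (p : Bit → S) (δ : Bit) (e : unitInterval)
    (X X' : Type) [MeasurableSpace X] [MeasurableSpace X'] (μ : Measure X) (μ' : Measure X')
    [IsProbabilityMeasure μ] (f : S → X → X) (f' : S → X' → X'), Sys β μ f → Sys β μ' f' →
    ∀ π : X → X', MeasurePreserving π μ μ' → (∀ s x, π (f s x) = f' s (π x)) →
    ∀ (s : X → Sk) (s' : X' → Sk), Measurable s → Measurable s' →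
      (∀ᵐ x ∂μ, s' (π x) = s x) → (TM β p δ e μ f s ↔ TM β p δ e μ' f' s')

/-- COD. The coding theorem: decoding a Bernoulli label gives a typed Markov system, and encoding gives the
label back. Proof: `S_ROOT, S_GROUP, S_GLUE3, S_PRB, S_MEAS` give `TM` for model 3 and `S3`; the map of
`S_E3MP` is equivariant (`field_shift`) and `dec` on the label model pulled back along it is `S3` a.e.
(`S_COD2B` for the model, `S_NAT`), so `S_TRANS` gives `TM` on the label model, with `enc dec = id` a.e. from
`S_COD2B`; then `S_TRANS, S_NAT` for `π = field β f l`. -/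
def S_COD : Prop :=
  ∀ (S : Type) [Finite S] (β : S → S) (p : Bit → S) (δ : Bit), Fr β p δ →
  ∀ (e : unitInterval), 0 < e →
  ∀ (X : Type) [MeasurableSpace X] (μ : Measure X) [IsProbabilityMeasure μ] (f : S → X → X),
    Sys β μ f → ∀ l : X → Lb, Bnl β μ f l (lawL e) →
    TM β p δ e μ f (dec p δ f l) ∧ ∀ᵐ x ∂μ, enc p δ f (dec p δ f l) x = l x

/-- ISO. Atomless standard probability spaces are isomorphic to `[0,1]`. Proof: Borel isomorphism with `ℝ`
(or an embedding), distribution function (continuous) and quantile function. -/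
def S_ISO : Prop :=
  ∀ (L : Type) [MeasurableSpace L] [StandardBorelSpace L] (law : Measure L)
    [IsProbabilityMeasure law] [NullSingletonClass law],
    ∃ (j : L → unitInterval) (j' : unitInterval → L), MeasurePreserving j law volume ∧
      MeasurePreserving j' volume law ∧ (∀ᵐ a ∂law, j' (j a) = a) ∧
      ∀ᵐ t ∂(volume : Measure unitInterval), j (j' t) = t

/-- RELAB. Relabelling. -/
def S_RELAB : Prop :=
  ∀ (S X L L' : Type) [Finite S] [MeasurableSpace X] [MeasurableSpace L] [MeasurableSpace L']
    (β : S → S) (μ : Measure X) [IsProbabilityMeasure μ] (f : S → X → X) (law : Measure L)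
    (law' : Measure L') [IsProbabilityMeasure law] [IsProbabilityMeasure law']
    (j : L → L') (j' : L' → L), Sys β μ f → MeasurePreserving j law law' →
    MeasurePreserving j' law' law → (∀ᵐ a ∂law, j' (j a) = a) →
    ∀ l : X → L, Bnl β μ f l law →
      Bnl β μ f (fun x => j (l x)) law' ∧
      (∀ᵐ x ∂μ, j' (j (l x)) = l x) ∧
      (Gen β μ f l → Gen β μ f (fun x => j (l x)))

end Pool.Agent.Helper73.OB
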