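import Pool.Agent.Helper73.OB.GoalsA

/-! Project OB: atomless standard probability spaces are isomorphic to `[0,1]`. -/

open MeasureTheory ProbabilityTheory Set unitInterval

namespace Pool.Agent.Helper73.OB

section

variable (ν : Measure I) [IsProbabilityMeasure ν]

/-- The distribution function. -/
noncomputable def cdfI (x : I) : I := ⟨ν.real (Iic x), measureReal_nonneg, measureReal_le_one⟩

theorem cdfI_mono : Monotone (cdfI ν) := by
  intro x y hxy
  show ν.real (Iic x) ≤ ν.real (Iic y)
  exact measureReal_mono (Iic_subset_Iic.2 hxy)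

/-- The quantile function. -/
noncomputable def qntI (t : I) : I := sSup {x | cdfI ν x < t}

theorem qntI_mono : Monotone (qntI ν) := by
  intro s t hst
  exact sSup_le_sSup fun x hx => lt_of_lt_of_le hx hst

theorem cdfI_lt_of_lt {t x : I} (h : x < qntI ν t) : cdfI ν x < t := by
  obtain ⟨y, hy, hxy⟩ := lt_sSup_iff.1 h
  exact lt_of_le_of_lt (cdfI_mono ν hxy.le) hy

theorem le_cdfI_of_lt {t x : I} (h : qntI ν t < x) : t ≤ cdfI ν x := by
  by_contra hlt
  push Not at hlt
  exact absurd (le_sSup (a := x) hlt) (not_le.2 h)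

/-- right continuity -/
theorem le_cdfI_qntI (t : I) : t ≤ cdfI ν (qntI ν t) := by
  by_cases h1 : qntI ν t = 1
  · rw [h1]
    have : cdfI ν 1 = 1 := by
      apply Subtype.ext
      show ν.real (Iic 1) = 1
      have : (Iic (1 : I)) = univ := by
        ext x; simp [le_one']
      rw [this]
      simp
    rw [this]
    exact le_one'
  · have hlt : qntI ν t < 1 := lt_of_le_of_ne le_one' h1
    obtain ⟨u, hu1, hu2, hu3⟩ := exists_seq_strictAnti_tendsto' hlt
    have hinter : Iic (qntI ν t) = ⋂ n, Iic (u n) := by
      ext x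
      simp only [mem_Iic, mem_iInter]
      constructor
      · intro hx n
        exact hx.trans (hu2 n).1.le
      · intro hx
        exact ge_of_tendsto' hu3 hx
    have hlim : Filter.Tendsto (fun n => ν (Iic (u n))) Filter.atTop
        (nhds (ν (⋂ n, Iic (u n)))) := by
      apply tendsto_measure_iInter_atTop
      · intro n; exact measurableSet_Iic.nullMeasurableSet
      · intro m n hmn
        exact Iic_subset_Iic.2 (hu1.antitone hmn)
      · exact ⟨0, measure_ne_top _ _⟩
    have hlim2 : Filter.Tendsto (fun n => (cdfI ν (u n) : ℝ)) Filter.atTop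
        (nhds (cdfI ν (qntI ν t) : ℝ)) := by
      have := (ENNReal.tendsto_toReal (measure_ne_top ν (⋂ n, Iic (u n)))).comp hlim
      rw [← hinter] at this
      exact this
    have h2 : ∀ n, (t : ℝ) ≤ (cdfI ν (u n) : ℝ) := fun n => le_cdfI_of_lt ν (hu2 n).1
    exact (ge_of_tendsto' hlim2 h2 : (t : ℝ) ≤ (cdfI ν (qntI ν t) : ℝ))

theorem qntI_le_iff (t x : I) : qntI ν t ≤ x ↔ t ≤ cdfI ν x := by
  constructor
  · intro h
    exact (le_cdfI_qntI ν t).trans (cdfI_mono ν h)
  · intro h
    by_contra hlt
    push Not at hlt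
    exact absurd h (not_le.2 (cdfI_lt_of_lt ν hlt))

theorem map_qntI : (volume : Measure I).map (qntI ν) = ν := by
  have hm : Measurable (qntI ν) := (qntI_mono ν).measurable
  have : IsProbabilityMeasure ((volume : Measure I).map (qntI ν)) :=
    Measure.isProbabilityMeasure_map hm.aemeasurable
  refine Measure.ext_of_Iic _ _ fun x => ?_
  rw [Measure.map_apply hm measurableSet_Iic]
  have : qntI ν ⁻¹' Iic x = Iic (cdfI ν x) := by
    ext t
    exact qntI_le_iff ν t x
  rw [this, volume_Iic]
  show ENNReal.ofReal (ν.real (Iic x)) = _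
  exact ofReal_measureReal (measure_ne_top _ _)

variable [NullSingletonClass ν]

theorem cdfI_qntI (t : I) : cdfI ν (qntI ν t) = t := by
  apply le_antisymm _ (le_cdfI_qntI ν t)
  by_cases h0 : qntI ν t = 0
  · rw [h0]
    have : cdfI ν 0 = 0 := by
      apply Subtype.ext
      show ν.real (Iic 0) = 0
      have h1 : (Iic (0 : I)) = {0} := by
        ext x
        simp
      rw [h1]
      simp [measureReal_def]
    rw [this]
    exact nonneg'
  · have hlt : 0 < qntI ν t := lt_of_le_of_ne nonneg' (Ne.symm h0)
    obtain ⟨u, hu1, hu2, hu3⟩ := exists_seq_strictMono_tendsto' hlt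
    have hun : Iio (qntI ν t) = ⋃ n, Iic (u n) := by
      ext x
      simp only [mem_Iio, mem_iUnion, mem_Iic]
      constructor
      · intro hx
        obtain ⟨n, hn⟩ := (hu3.eventually (lt_mem_nhds hx)).exists
        exact ⟨n, hn.le⟩
      · rintro ⟨n, hn⟩
        exact lt_of_le_of_lt hn (hu2 n).2
    have hlim : Filter.Tendsto (fun n => ν (Iic (u n))) Filter.atTop
        (nhds (ν (⋃ n, Iic (u n)))) := by
      apply tendsto_measure_iUnion_atTop
      intro m n hmn
      exact Iic_subset_Iic.2 (hu1.monotone hmn)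
    have heq : ν (⋃ n, Iic (u n)) = ν (Iic (qntI ν t)) := by
      rw [← hun]
      exact measure_congr Iio_ae_eq_Iic
    have hlim2 : Filter.Tendsto (fun n => (cdfI ν (u n) : ℝ)) Filter.atTop
        (nhds (cdfI ν (qntI ν t) : ℝ)) := by
      have := (ENNReal.tendsto_toReal (measure_ne_top ν (⋃ n, Iic (u n)))).comp hlim
      rw [heq] at this
      exact this
    have h2 : ∀ n, (cdfI ν (u n) : ℝ) ≤ (t : ℝ) := fun n => (cdfI_lt_of_lt ν (hu2 n).2).le
    exact (le_of_tendsto' hlim2 h2 : (cdfI ν (qntI ν t) : ℝ) ≤ (t : ℝ))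

end

theorem iso : S_ISO := by
  intro L _ _ law _ _
  have : Nonempty L := by
    by_contra h
    rw [not_nonempty_iff] at h
    have := measure_univ (μ := law)
    rw [Set.univ_eq_empty_iff.2 h] at this
    simp at this
  let g : L → I := sigmoid ∘ embeddingReal L
  have hg : MeasurableEmbedding g := measurableEmbedding_sigmoid_comp_embeddingReal L
  set ν := law.map g with hν
  have : IsProbabilityMeasure ν := Measure.isProbabilityMeasure_map hg.measurable.aemeasurable
  have : NullSingletonClass ν := ⟨fun x => by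
    rw [hν, hg.map_apply]
    rcases (g ⁻¹' {x}).eq_empty_or_nonempty with h | ⟨a, ha⟩
    · rw [h]; simp
    · have : g ⁻¹' {x} = {a} := by
        ext b
        simp only [mem_preimage, mem_singleton_iff] at ha ⊢
        constructor
        · intro hb
          exact hg.injective (hb.trans ha.symm)
        · rintro rfl
          exact ha
      rw [this]
      exact measure_singleton a⟩
  have hF : Measurable (cdfI ν) := (cdfI_mono ν).measurable
  have hQ : Measurable (qntI ν) := (qntI_mono ν).measurable
  have hinv : Measurable hg.invFun := hg.measurable_invFun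
  have hmapF : ν.map (cdfI ν) = volume := by
    have : ν = (volume : Measure I).map (qntI ν) := (map_qntI ν).symm
    calc ν.map (cdfI ν) = ((volume : Measure I).map (qntI ν)).map (cdfI ν) := by rw [← this]
      _ = (volume : Measure I).map (cdfI ν ∘ qntI ν) := Measure.map_map hF hQ
      _ = volume := by
        have : cdfI ν ∘ qntI ν = id := funext fun t => cdfI_qntI ν t
        rw [this, Measure.map_id]
  have hQF : ∀ᵐ x ∂ν, qntI ν (cdfI ν x) = x := by
    have hms : MeasurableSet {x | qntI ν (cdfI ν x) = x} :=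
      measurableSet_eq_fun (hQ.comp hF) measurable_id
    have h1 : ∀ᵐ x ∂((volume : Measure I).map (qntI ν)), qntI ν (cdfI ν x) = x := by
      rw [ae_map_iff hQ.aemeasurable hms]
      exact Filter.Eventually.of_forall fun t => by
        show qntI ν (cdfI ν (qntI ν t)) = qntI ν t
        rw [cdfI_qntI]
    rwa [map_qntI ν] at h1
  have hmapinv : ν.map hg.invFun = law := by
    rw [hν, Measure.map_map hinv hg.measurable]
    have : hg.invFun ∘ g = id := funext fun a => hg.leftInverse_invFun a
    rw [this, Measure.map_id]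
  refine ⟨fun a => cdfI ν (g a), fun t => hg.invFun (qntI ν t), ?_, ?_, ?_, ?_⟩
  · refine ⟨hF.comp hg.measurable, ?_⟩
    have : (fun a => cdfI ν (g a)) = cdfI ν ∘ g := rfl
    rw [this, ← Measure.map_map hF hg.measurable, ← hν, hmapF]
  · refine ⟨hinv.comp hQ, ?_⟩
    have : (fun t => hg.invFun (qntI ν t)) = hg.invFun ∘ qntI ν := rfl
    rw [this, ← Measure.map_map hinv hQ, map_qntI ν, hmapinv]
  · have h1 : ∀ᵐ a ∂law, qntI ν (cdfI ν (g a)) = g a :=
      ae_of_ae_map hg.measurable.aemeasurable hQF
    filter_upwards [h1] with a ha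
    rw [ha]
    exact hg.leftInverse_invFun a
  · have h1 : ∀ᵐ x ∂ν, x ∈ range g := by
      rw [hν, hg.ae_map_iff]
      exact Filter.Eventually.of_forall fun a => mem_range_self a
    have h2 : ∀ᵐ t ∂(volume : Measure I), qntI ν t ∈ range g := by
      rw [← map_qntI ν] at h1
      exact ae_of_ae_map hQ.aemeasurable h1
    filter_upwards [h2] with t ht
    obtain ⟨a, ha⟩ := ht
    rw [← ha, hg.leftInverse_invFun a, ha]
    exact cdfI_qntI ν t

end Pool.Agent.Helper73.OB
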