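import Pool.Agent.Helper73.OB.GoalsB

/-! Project OB: log-convex sequences. -/

namespace Pool.Agent.Helper73.OB

theorem lcs_step (a : ℕ → ℝ) (ρ C : ℝ) (hρ : 0 ≤ ρ) (h0 : ∀ k, 0 ≤ a k)
    (hc : ∀ k, a (k + 1) ^ 2 ≤ a k * a (k + 2)) (hb : ∀ k, a k ≤ C * ρ ^ k) :
    a 1 ≤ ρ * a 0 := by
  by_contra hlt
  push Not at hlt
  have h1 : 0 < a 1 := lt_of_le_of_lt (mul_nonneg hρ (h0 0)) hlt
  have h00 : 0 < a 0 := by
    rcases lt_or_eq_of_le (h0 0) with h | h
    · exact h
    · have := hc 0
      rw [← h] at this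
      simp only [zero_add, zero_mul] at this
      nlinarith [sq_nonneg (a 1), pow_pos h1 2]
  set q := a 1 / a 0 with hq
  have hqρ : ρ < q := by
    rw [hq, lt_div_iff₀ h00]
    exact hlt
  have hqpos : 0 < q := lt_of_le_of_lt hρ hqρ
  -- ratios increase
  have key : ∀ k, 0 < a k ∧ q * a k ≤ a (k + 1) := by
    intro k
    induction k with
    | zero =>
      refine ⟨h00, ?_⟩
      rw [hq, div_mul_cancel₀ _ h00.ne']
    | succ k ih =>
      obtain ⟨hk, hk1⟩ := ih
      have hk1pos : 0 < a (k + 1) := lt_of_lt_of_le (mul_pos hqpos hk) hk1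
      refine ⟨hk1pos, ?_⟩
      have h2 := hc k
      have h3 : q * a (k + 1) * a k ≤ a (k + 2) * a k := by
        calc q * a (k + 1) * a k = a (k + 1) * (q * a k) := by ring
          _ ≤ a (k + 1) * a (k + 1) := mul_le_mul_of_nonneg_left hk1 hk1pos.le
          _ = a (k + 1) ^ 2 := by ring
          _ ≤ a k * a (k + 2) := h2
          _ = a (k + 2) * a k := by ring
      exact le_of_mul_le_mul_right h3 hk
  have key2 : ∀ k, q ^ k * a 0 ≤ a k := by
    intro k
    induction k with
    | zero => simp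
    | succ k ih =>
      calc q ^ (k + 1) * a 0 = q * (q ^ k * a 0) := by ring
        _ ≤ q * a k := mul_le_mul_of_nonneg_left ih hqpos.le
        _ ≤ a (k + 1) := (key k).2
  rcases lt_or_eq_of_le hρ with hρ' | hρ'
  · have hr : 1 < q / ρ := by rwa [lt_div_iff₀ hρ', one_mul]
    obtain ⟨k, hk⟩ := pow_unbounded_of_one_lt (C / a 0) hr
    have h5 := (key2 k).trans (hb k)
    rw [div_lt_iff₀ h00] at hk
    have h6 : (q / ρ) ^ k * a 0 ≤ C := by
      rw [div_pow, div_mul_eq_mul_div, div_le_iff₀ (pow_pos hρ' k)]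
      exact h5
    linarith
  · have h5 := hb 1
    rw [← hρ'] at h5
    simp at h5
    linarith

theorem lcs : S_LCS := by
  intro a ρ C hρ h0 hc hb k
  have hstep : ∀ j, a (j + 1) ≤ ρ * a j := by
    intro j
    have := lcs_step (fun k => a (j + k)) ρ (C * ρ ^ j) hρ (fun k => h0 _)
      (fun k => by simpa [add_assoc] using hc (j + k))
      (fun k => by
        have := hb (j + k)
        rw [pow_add] at this
        simpa [mul_assoc] using this)
    simpa using this
  induction k with
  | zero => simp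
  | succ k ih =>
    calc a (k + 1) ≤ ρ * a k := hstep k
      _ ≤ ρ * (ρ ^ k * a 0) := mul_le_mul_of_nonneg_left ih hρ
      _ = ρ ^ (k + 1) * a 0 := by ring

end Pool.Agent.Helper73.OB
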