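import Pool.Agent.Helper73.OB.GoalsB

/-! Project OB: counting words with a given reduced form. -/

namespace Pool.Agent.Helper73.OB

section

variable {S : Type} [Fintype S] {β : S → S}

theorem p1_letter (hβ : ∀ s, β (β s) = s) {q : ℝ} (hq0 : 0 < q)
    (hq : q ^ 2 = (Fintype.card S : ℝ) - 1) (hm : 2 ≤ Fintype.card S) (g : List S) :
    ∑ s : S, (q⁻¹) ^ (ls β s g).length ≤ 2 * q * (q⁻¹) ^ g.length := by
  classical
  cases g with
  | nil =>
    have h1 : ∀ s : S, (q⁻¹) ^ (ls β s ([] : List S)).length = q⁻¹ := by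
      intro s
      simp [ls]
    rw [Finset.sum_congr rfl fun s _ => h1 s]
    simp only [Finset.sum_const, Finset.card_univ, nsmul_eq_mul, List.length_nil, pow_zero, mul_one]
    have hm' : (2 : ℝ) ≤ Fintype.card S := by exact_mod_cast hm
    rw [← div_eq_mul_inv, div_le_iff₀ hq0]
    nlinarith
  | cons b g =>
    have h1 : ∀ s : S, (q⁻¹) ^ (ls β s (b :: g)).length =
        if s = β b then (q⁻¹) ^ g.length else (q⁻¹) ^ (g.length + 2) := by
      intro s
      by_cases h : s = β b
      · subst h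
        have : (b :: g).head? = some (β (β b)) := by simp [hβ]
        simp [ls, this]
      · have : ¬ (b :: g).head? = some (β s) := by
          intro h'
          apply h
          have : b = β s := by simpa using h'
          rw [this, hβ]
        rw [if_neg h]
        unfold ls
        rw [if_neg this]
        simp
    rw [Finset.sum_congr rfl fun s _ => h1 s]
    rw [Finset.sum_ite]
    have hf1 : (Finset.univ.filter fun s : S => s = β b) = {β b} := by
      ext s; simp
    have hf2 : (Finset.univ.filter fun s : S => ¬ s = β b).card = Fintype.card S - 1 := by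
      have : (Finset.univ.filter fun s : S => ¬ s = β b) = Finset.univ.erase (β b) := by
        ext s; simp
      rw [this, Finset.card_erase_of_mem (Finset.mem_univ _), Finset.card_univ]
    rw [Finset.sum_const, Finset.sum_const, hf2, hf1]
    have hc : ((Fintype.card S - 1 : ℕ) : ℝ) = q ^ 2 := by
      rw [hq, Nat.cast_sub (by omega)]
      simp
    simp only [Finset.card_singleton, one_smul, nsmul_eq_mul, hc, List.length_cons]
    have h3 : q * q⁻¹ = 1 := mul_inv_cancel₀ hq0.ne'
    have h4 : q ^ 2 * (q⁻¹) ^ (g.length + 2) = (q⁻¹) ^ g.length := by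
      rw [pow_add]
      calc q ^ 2 * ((q⁻¹) ^ g.length * (q⁻¹) ^ 2) = (q * q⁻¹) ^ 2 * (q⁻¹) ^ g.length := by ring
        _ = (q⁻¹) ^ g.length := by rw [h3]; ring
    have h5 : 2 * q * (q⁻¹) ^ (g.length + 1) = 2 * (q⁻¹) ^ g.length := by
      rw [pow_succ]
      calc 2 * q * ((q⁻¹) ^ g.length * q⁻¹) = 2 * (q * q⁻¹) * (q⁻¹) ^ g.length := by ring
        _ = 2 * (q⁻¹) ^ g.length := by rw [h3]; ring
    rw [h4, h5]
    apply le_of_eq
    ring

theorem p1_sum (hβ : ∀ s, β (β s) = s) {q : ℝ} (hq0 : 0 < q)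
    (hq : q ^ 2 = (Fintype.card S : ℝ) - 1) (hm : 2 ≤ Fintype.card S) (n : ℕ) :
    ∑ u : Fin n → S, (q⁻¹) ^ (red β (List.ofFn u)).length ≤ (2 * q) ^ n := by
  induction n with
  | zero => simp [red]
  | succ n ih =>
    have h1 : ∑ u : Fin (n + 1) → S, (q⁻¹) ^ (red β (List.ofFn u)).length =
        ∑ v : Fin n → S, ∑ s : S, (q⁻¹) ^ (ls β s (red β (List.ofFn v))).length := by
      rw [Finset.sum_comm, ← Fintype.sum_prod_type']
      symm
      apply Fintype.sum_equiv (Fin.consEquiv fun _ => S)
      intro x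
      have h9 : List.ofFn ((Fin.consEquiv fun _ => S) x) = x.1 :: List.ofFn x.2 := by
        rw [List.ofFn_succ]
        simp [Fin.consEquiv]
      rw [h9]
      rfl
    rw [h1]
    calc ∑ v : Fin n → S, ∑ s : S, (q⁻¹) ^ (ls β s (red β (List.ofFn v))).length
        ≤ ∑ v : Fin n → S, 2 * q * (q⁻¹) ^ (red β (List.ofFn v)).length :=
          Finset.sum_le_sum fun v _ => p1_letter hβ hq0 hq hm _
      _ = 2 * q * ∑ v : Fin n → S, (q⁻¹) ^ (red β (List.ofFn v)).length := by
          rw [Finset.mul_sum]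
      _ ≤ 2 * q * (2 * q) ^ n := mul_le_mul_of_nonneg_left ih (by positivity)
      _ = (2 * q) ^ (n + 1) := by ring

end

theorem p1 : S_P1 := by
  intro S _ β hβ hm n h _
  classical
  set q := Real.sqrt ((Fintype.card S : ℝ) - 1) with hqdef
  have hm' : (2 : ℝ) ≤ Fintype.card S := by exact_mod_cast hm
  have hq : q ^ 2 = (Fintype.card S : ℝ) - 1 := Real.sq_sqrt (by linarith)
  have hq0 : 0 < q := Real.sqrt_pos.2 (by linarith)
  have h1 := p1_sum hβ hq0 hq hm n
  have h2 : (Nat.card {u : Fin n → S // red β (List.ofFn u) = h} : ℝ) * (q⁻¹) ^ h.length ≤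
      ∑ u : Fin n → S, (q⁻¹) ^ (red β (List.ofFn u)).length := by
    rw [Nat.card_eq_fintype_card, Fintype.card_subtype]
    calc (((Finset.univ.filter fun u : Fin n → S => red β (List.ofFn u) = h).card : ℕ) : ℝ) *
          (q⁻¹) ^ h.length
        = ∑ u ∈ Finset.univ.filter (fun u : Fin n → S => red β (List.ofFn u) = h),
          (q⁻¹) ^ (red β (List.ofFn u)).length := by
          rw [Finset.sum_congr rfl fun u hu => by rw [(Finset.mem_filter.1 hu).2]]
          rw [Finset.sum_const, nsmul_eq_mul]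
      _ ≤ _ := Finset.sum_le_sum_of_subset_of_nonneg (Finset.filter_subset _ _)
          fun u _ _ => by positivity
  have h3 := h2.trans h1
  have h4 : (q⁻¹) ^ h.length * q ^ h.length = 1 := by
    rw [← mul_pow, inv_mul_cancel₀ hq0.ne', one_pow]
  calc (Nat.card {u : Fin n → S // red β (List.ofFn u) = h} : ℝ)
      = (Nat.card {u : Fin n → S // red β (List.ofFn u) = h} : ℝ) * (q⁻¹) ^ h.length *
          q ^ h.length := by rw [mul_assoc, h4, mul_one]
    _ ≤ (2 * q) ^ n * q ^ h.length := mul_le_mul_of_nonneg_right h3 (by positivity)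

end Pool.Agent.Helper73.OB
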